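import Pool.Agent.Run7.h206.QP.Arcs

/-!
# Uniform self-avoiding polygons near the sides of their bounding box

The width of a polygon on `ℤ²` is the distance of its two extreme columns. For the uniform
self-avoiding polygon of perimeter `2 n` we bound the number of the vertices in the `h + 1` columns
next to an extreme one (and in the rows next to an extreme one) by a quasi-polynomial function of
`h`, uniformly in `n`, with exponential tails, for all `h` at once. The same holds, up to the factor
`(log n)²`, for the bounding boxes of all arcs of the polygon at once.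

Proof. The walks which belong to the rooted polygons are the walks with `2 n - 1` steps whose end is
a neighbour of the beginning. In each block of the bottom side in which the polygon has a lowest site
with height at most `h` a polygon with perimeter `2 ℓ`, `ℓ = (h + 2)²`, can be hung below an edge;
the polygon, the blocks and the hung polygons can be read off the result (`Run7/h206/QB/Hang`), and
the result is again a polygon, of perimeter `2 n + 2 ℓ r` for `r` blocks. The number of polygons of
perimeter `2 n + 2 ℓ r` is at most `(3 c_(2 ℓ))^r` times the number of polygons of perimeter `2 n`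
if `ℓ` is small compared to `√n / log n`, by the starting bound `|p_{2n+2}/p_{2n} - μ²| ≤
K log n / √n` (`W387.Q.f1`), and the number of the polygons with perimeter `2 ℓ` is at least
`exp (- K (log ℓ)²) c_(2 ℓ)` (`TH508.LT`). If `ℓ` is not small there is nothing to prove.
-/

set_option autoImplicit false

namespace Pool.Agent.Results.MP_c23e5f_co.PolygonBoundingBox

open scoped Classical

/-- `f` is a self-avoiding polygon of perimeter `2 n`, with a root (which is the origin) and an
orientation: a closed nearest-neighbour walk of `2 n` steps which visits no vertex twice. (Every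
polygon, up to translation, has exactly `4 n` such descriptions, so that a uniform `f` is a uniform
polygon with a uniform root and orientation.) -/
def IsPolygon (n : ℕ) (f : ZMod (2 * n) → ℤ × ℤ) : Prop :=
  f 0 = 0 ∧ Function.Injective f ∧
    ∀ i : ZMod (2 * n), |(f (i + 1)).1 - (f i).1| + |(f (i + 1)).2 - (f i).2| = 1

/-- the number of the rooted oriented polygons -/
noncomputable def number (n : ℕ) : ℕ := Nat.card {f : ZMod (2 * n) → ℤ × ℤ // IsPolygon n f}

/-- the mean of `F` over the polygons of perimeter `2 n` -/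
noncomputable def mean (n : ℕ) (F : (ZMod (2 * n) → ℤ × ℤ) → ℝ) : ℝ :=
  (∑ᶠ f ∈ {f : ZMod (2 * n) → ℤ × ℤ | IsPolygon n f}, F f) / number n

/-- the four coordinate functions `x`, `-x`, `y`, `-y`, one for each side of the bounding box -/
def sides : Set (ℤ × ℤ → ℤ) :=
  {fun p => p.1, fun p => -p.1, fun p => p.2, fun p => -p.2}

/-- the number of the vertices `f (s + k)`, `0 ≤ k ≤ b`, of the arc with `b` steps from the time `s`
at which `g` is at most `h` larger than its minimum over this arc: the vertices of the arc at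
distance at most `h` from the side of the bounding box of the arc which belongs to `g`. (The arc
from `0` with `2 n - 1` steps contains all vertices of the polygon.) -/
noncomputable def near {n : ℕ} (f : ZMod (2 * n) → ℤ × ℤ) (s : ZMod (2 * n)) (b h : ℕ)
    (g : ℤ × ℤ → ℤ) : ℕ :=
  Nat.card {k : Fin (b + 1) // ∀ l : Fin (b + 1),
    g (f (s + ((k : ℕ) : ZMod (2 * n)))) ≤ g (f (s + ((l : ℕ) : ZMod (2 * n)))) + h}

open Run7.h206.QB Run7.h206.SV Run7.h206.QP

theorem sides_sy {f : ℤ × ℤ → ℤ} (hf : f ∈ sides) : ∃ i : Fin 4, ∀ p, f p = (sy i p).2 := by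
  unfold sides at hf
  simp only [Set.mem_insert_iff, Set.mem_singleton_iff] at hf
  rcases hf with rfl | rfl | rfl | rfl
  · exact ⟨2, fun p => rfl⟩
  · exact ⟨3, fun p => rfl⟩
  · exact ⟨0, fun p => rfl⟩
  · exact ⟨1, fun p => rfl⟩

theorem sy_sides (i : Fin 4) : (fun p => (sy i p).2) ∈ sides := by
  unfold sides
  simp only [Set.mem_insert_iff, Set.mem_singleton_iff]
  fin_cases i
  · exact Or.inr (Or.inr (Or.inl rfl))
  · exact Or.inr (Or.inr (Or.inr rfl))
  · exact Or.inl rfl
  · exact Or.inr (Or.inl rfl)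

theorem mem_poly {n : ℕ} (hn : 2 ≤ n) {f : ZMod (2 * n) → ℤ × ℤ} :
    f ∈ Pool.Agent.W870.Pg.LF (2 * n) ↔ IsPolygon n f := by
  have : NeZero (2 * n) := ⟨by omega⟩
  rw [Pool.Agent.W870.Pg.mem_LF]
  exact Iff.rfl

theorem card_poly {n : ℕ} (hn : 2 ≤ n) (p : (ZMod (2 * n) → ℤ × ℤ) → Prop) :
    Nat.card {f : ZMod (2 * n) → ℤ × ℤ // IsPolygon n f ∧ p f} =
      ((Pool.Agent.W870.Pg.LF (2 * n)).filter p).card := by
  rw [← Set.ncard_coe_finset, ← Nat.card_coe_set_eq]
  refine Nat.card_congr (Equiv.subtypeEquivRight fun f => ?_)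
  rw [Finset.mem_coe, Finset.mem_filter, mem_poly hn]

theorem number_eq {n : ℕ} (hn : 2 ≤ n) : number n = (Pool.Agent.W870.Pg.LF (2 * n)).card := by
  unfold number
  rw [← Set.ncard_coe_finset, ← Nat.card_coe_set_eq]
  refine Nat.card_congr (Equiv.subtypeEquivRight fun f => ?_)
  rw [Finset.mem_coe, mem_poly hn]

theorem near_nr {n : ℕ} (f : ZMod (2 * n) → ℤ × ℤ) (s : ZMod (2 * n)) (b h : ℕ)
    (g : ℤ × ℤ → ℤ) : near f s b h g = nr f s b h g := rfl

/-- **Theorem.** There is a constant `K` such that for the uniform self-avoiding polygon of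
perimeter `2 n` on `ℤ²`:
(1) for all `n ≥ 2` and `h` the mean number of the vertices at distance at most `h` from a given
side of the bounding box is at most `exp (K (log (h + 2))^2)`;
(2) for all `n ≥ 2` and `x ≥ 0`, with probability at least `1 - exp (-x)`, for all `h` and all four
sides at once this number is at most `(1 + x) exp (K (log (h + 2))^2)`;
(3) for all `n ≥ 2` and `x ≥ 0`, with probability at least `1 - exp (-x)`, for all arcs of the
polygon, all `h` and all four sides of the bounding box of the arc at once, the number of the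
vertices of the arc at distance at most `h` from the side is at most
`((log n)^2 + x) exp (K (log (h + 2))^2)`. -/
theorem result : ∃ K : ℝ, 0 < K ∧
    (∀ n : ℕ, 2 ≤ n → ∀ h : ℕ, ∀ g ∈ sides,
      mean n (fun f => (near f 0 (2 * n - 1) h g : ℝ)) ≤ Real.exp (K * Real.log (h + 2) ^ 2)) ∧
    (∀ n : ℕ, 2 ≤ n → ∀ x : ℝ, 0 ≤ x →
      (Nat.card {f : ZMod (2 * n) → ℤ × ℤ // IsPolygon n f ∧ ∃ h : ℕ, ∃ g ∈ sides,
        (1 + x) * Real.exp (K * Real.log (h + 2) ^ 2) < (near f 0 (2 * n - 1) h g : ℝ)} : ℝ) ≤
      Real.exp (-x) * number n) ∧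
    (∀ n : ℕ, 2 ≤ n → ∀ x : ℝ, 0 ≤ x →
      (Nat.card {f : ZMod (2 * n) → ℤ × ℤ // IsPolygon n f ∧ ∃ (s : ZMod (2 * n)) (b : ℕ),
        b < 2 * n ∧ ∃ h : ℕ, ∃ g ∈ sides,
        (Real.log n ^ 2 + x) * Real.exp (K * Real.log (h + 2) ^ 2) < (near f s b h g : ℝ)} : ℝ) ≤
      Real.exp (-x) * number n) := by
  obtain ⟨K1, hK1, H1⟩ := whole
  obtain ⟨K2, hK2, H2⟩ := arcs
  refine ⟨K1 + K2, by positivity, ?_, ?_, ?_⟩
  · intro n hn h g hg
    obtain ⟨i, hi⟩ := sides_sy hg
    have hpos : (0 : ℝ) < number n := by
      rw [number_eq hn, Pool.Agent.W870.Pg.loops_eq (by omega)]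
      have h1 := Pool.Agent.H739K.PP_pos hn
      have h2 : (0 : ℝ) < n := by exact_mod_cast (by omega : 0 < n)
      positivity
    unfold mean
    rw [div_le_iff₀ hpos]
    have e1 : ({f : ZMod (2 * n) → ℤ × ℤ | IsPolygon n f} : Set (ZMod (2 * n) → ℤ × ℤ)) =
        (Pool.Agent.W870.Pg.LF (2 * n) : Set _) := by
      ext f
      rw [Finset.mem_coe, mem_poly hn]
      rfl
    rw [e1, finsum_mem_coe_finset, number_eq hn]
    refine le_trans (le_of_eq (Finset.sum_congr rfl (fun f hf => ?_)))
      (((H1 n hn).2 i h).trans ?_)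
    · rw [near_nr, nr_whole (by omega) ((mem_poly hn).1 hf) hi]
    · gcongr
      linarith
  · intro n hn x hx
    rw [card_poly hn, number_eq hn]
    refine le_trans ?_ ((H1 n hn).1 x hx)
    have hsub : (Pool.Agent.W870.Pg.LF (2 * n)).filter (fun f => ∃ h : ℕ, ∃ g ∈ sides,
        (1 + x) * Real.exp ((K1 + K2) * Real.log (h + 2) ^ 2) <
          (near f 0 (2 * n - 1) h g : ℝ)) ⊆
        (Pool.Agent.W870.Pg.LF (2 * n)).filter (fun f => Bad K1 x (lst n f)) := by
      intro f hf
      obtain ⟨hf, h, g, hg, hb⟩ := Finset.mem_filter.1 hf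
      obtain ⟨i, hi⟩ := sides_sy hg
      rw [near_nr, nr_whole (by omega) ((mem_poly hn).1 hf) hi] at hb
      refine Finset.mem_filter.2 ⟨hf, i, h, lt_of_le_of_lt ?_ hb⟩
      gcongr
      linarith
    exact_mod_cast Finset.card_le_card hsub
  · intro n hn x hx
    rw [card_poly hn, number_eq hn]
    refine le_trans ?_ (H2 n hn x hx)
    have hsub : (Pool.Agent.W870.Pg.LF (2 * n)).filter (fun f => ∃ (s : ZMod (2 * n)) (b : ℕ),
        b < 2 * n ∧ ∃ h : ℕ, ∃ g ∈ sides,
        (Real.log n ^ 2 + x) * Real.exp ((K1 + K2) * Real.log (h + 2) ^ 2) <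
          (near f s b h g : ℝ)) ⊆
        (Pool.Agent.W870.Pg.LF (2 * n)).filter (fun f => ∃ s,
          BadT (2 * n - 1) K2 (Real.log n ^ 2 + x) (lst n (rot s f))) := by
      intro f hf
      obtain ⟨hf, s, b, hb, h, g, hg, hbad⟩ := Finset.mem_filter.1 hf
      obtain ⟨i, hi⟩ := sides_sy hg
      rw [near_nr, nr_eq (by omega) ((mem_poly hn).1 hf) s (by omega) hi] at hbad
      refine Finset.mem_filter.2 ⟨hf, s, b, by omega, i, h, lt_of_le_of_lt ?_ hbad⟩
      gcongr
      linarith
    exact_mod_cast Finset.card_le_card hsub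

end Pool.Agent.Results.MP_c23e5f_co.PolygonBoundingBox
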