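import Pool.Agent.Run7.h647.PD.Poly

/-!
# The sites at which a long self-avoiding polygon attains its diameter

Uniform self-avoiding polygons of perimeter `2 n` on the square lattice.  The number of the sites
which are at maximal distance from another site of the polygon has exponential moments which are
bounded uniformly in `n`.
-/

set_option autoImplicit false

namespace Pool.Agent.Results.MP_c23e5f_co.PolygonDiametralSites

/-- `f` is a self-avoiding polygon of perimeter `2 n`, with a root (which is the origin) and an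
orientation: a closed nearest-neighbour walk of `2 n` steps which visits no vertex twice. (Every
polygon, up to translation, has exactly `4 n` such descriptions, so that a uniform `f` is a uniform
polygon with a uniform root and orientation.) -/
def IsPolygon (n : ℕ) (f : ZMod (2 * n) → ℤ × ℤ) : Prop :=
  f 0 = 0 ∧ Function.Injective f ∧
    ∀ i : ZMod (2 * n), |(f (i + 1)).1 - (f i).1| + |(f (i + 1)).2 - (f i).2| = 1

/-- The mean of `X` under the uniform probability measure on the polygons of perimeter `2 n`. -/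
noncomputable def mean (n : ℕ) (X : (ZMod (2 * n) → ℤ × ℤ) → ℝ) : ℝ :=
  (∑ᶠ f ∈ {f : ZMod (2 * n) → ℤ × ℤ | IsPolygon n f}, X f) /
    ({f | IsPolygon n f} : Set (ZMod (2 * n) → ℤ × ℤ)).ncard

/-- The probability of an event under the uniform probability measure on the polygons of perimeter
`2 n`. -/
noncomputable def prob (n : ℕ) (E : (ZMod (2 * n) → ℤ × ℤ) → Prop) : ℝ :=
  (({f | IsPolygon n f ∧ E f} : Set (ZMod (2 * n) → ℤ × ℤ)).ncard : ℝ) /
    ({f | IsPolygon n f} : Set (ZMod (2 * n) → ℤ × ℤ)).ncard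

/-- The square of the Euclidean distance of two sites. -/
def dist2 (p q : ℤ × ℤ) : ℤ := (p.1 - q.1) ^ 2 + (p.2 - q.2) ^ 2

/-- The number of the diametral sites of the polygon: the times `i` such that, for some time `j`,
the distance of `f i` and `f j` is the Euclidean diameter of the polygon. -/
noncomputable def diametral {n : ℕ} (f : ZMod (2 * n) → ℤ × ℤ) : ℕ :=
  ({i | ∃ j, ∀ k l, dist2 (f k) (f l) ≤ dist2 (f i) (f j)} : Set (ZMod (2 * n))).ncard

open Run7.h647.PD in
theorem aux {c : ℝ} (hc : 0 < c)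
    (h : ∀ n : ℕ, 1 ≤ n → ∑ f ∈ LpF n, Real.exp (c * (Dt f).ncard) ≤ 24 * (LpF n).card)
    (n m : ℕ) (hn : 1 ≤ n) (hm : m = n + 1) :
    (∑ᶠ f ∈ {f : ZMod m → ℤ × ℤ | Lp m f}, Real.exp (c * (Dt f).ncard)) ≤
        24 * (({f | Lp m f} : Set (ZMod m → ℤ × ℤ)).ncard : ℝ) ∧
      ∀ v : ℝ, (({f | Lp m f ∧ v ≤ (Dt f).ncard} : Set (ZMod m → ℤ × ℤ)).ncard : ℝ) *
        Real.exp (c * v) ≤ 24 * (({f | Lp m f} : Set (ZMod m → ℤ × ℤ)).ncard : ℝ) := by
  subst hm
  have e1 : ({f | Lp (n + 1) f} : Set (ZMod (n + 1) → ℤ × ℤ)) = (LpF n : Set _) := by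
    ext f
    exact mem_LpF.symm
  have e2 : ({f | Lp (n + 1) f} : Set (ZMod (n + 1) → ℤ × ℤ)).ncard = (LpF n).card := by
    rw [e1, Set.ncard_coe_finset]
  have h1 := h n hn
  refine ⟨?_, fun v => ?_⟩
  · rw [e2, e1]
    refine le_trans (le_of_eq ?_) h1
    exact finsum_mem_coe_finset _ _
  · rw [e2]
    refine le_trans ?_ h1
    have e3 : ({f | Lp (n + 1) f ∧ v ≤ (Dt f).ncard} : Set (ZMod (n + 1) → ℤ × ℤ)) =
        ((LpF n).filter (fun f => v ≤ (Dt f).ncard) : Finset _) := by
      ext f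
      rw [Finset.coe_filter]
      constructor
      · rintro ⟨a, b⟩
        exact ⟨mem_LpF.2 a, b⟩
      · rintro ⟨a, b⟩
        exact ⟨mem_LpF.1 a, b⟩
    rw [e3, Set.ncard_coe_finset]
    calc (((LpF n).filter (fun f => v ≤ (Dt f).ncard)).card : ℝ) * Real.exp (c * v)
        = ∑ f ∈ (LpF n).filter (fun f => v ≤ (Dt f).ncard), Real.exp (c * v) := by
          rw [Finset.sum_const, nsmul_eq_mul]
      _ ≤ ∑ f ∈ (LpF n).filter (fun f => v ≤ (Dt f).ncard), Real.exp (c * (Dt f).ncard) := by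
          refine Finset.sum_le_sum (fun f hf => Real.exp_le_exp.2 ?_)
          exact mul_le_mul_of_nonneg_left (Finset.mem_filter.1 hf).2 hc.le
      _ ≤ _ := Finset.sum_le_sum_of_subset_of_nonneg (Finset.filter_subset _ _)
          (fun f _ _ => (Real.exp_pos _).le)

/-- **Diametral sites.**  There is a constant `c > 0` such that for all `n ≥ 2`: the number `D` of
the diametral sites of the uniform self-avoiding polygon of perimeter `2 n` has
`E[e ^ (c D)] ≤ 24`, and `P(D ≥ v) ≤ 24 e ^ (-c v)` for all `v`. -/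
theorem result : ∃ c : ℝ, 0 < c ∧ ∀ n : ℕ, 2 ≤ n →
    mean n (fun f => Real.exp (c * diametral f)) ≤ 24 ∧
    ∀ v : ℝ, prob n (fun f => v ≤ diametral f) ≤ 24 * Real.exp (-(c * v)) := by
  obtain ⟨c, hc, h⟩ := Run7.h647.PD.main
  refine ⟨c, hc, fun n hn => ?_⟩
  obtain ⟨h1, h2⟩ := aux hc h (2 * n - 1) (2 * n) (by omega) (by omega)
  refine ⟨?_, fun v => ?_⟩
  · unfold mean
    exact div_le_of_le_mul₀ (Nat.cast_nonneg _) (by norm_num) h1
  · unfold prob
    refine div_le_of_le_mul₀ (Nat.cast_nonneg _) (by positivity) ?_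
    have h3 := h2 v
    have h4 : Real.exp (c * v) * Real.exp (-(c * v)) = 1 := by
      rw [← Real.exp_add, add_neg_cancel, Real.exp_zero]
    calc (({f | IsPolygon n f ∧ v ≤ diametral f} : Set (ZMod (2 * n) → ℤ × ℤ)).ncard : ℝ)
        = (({f | IsPolygon n f ∧ v ≤ diametral f} : Set (ZMod (2 * n) → ℤ × ℤ)).ncard : ℝ) *
          Real.exp (c * v) * Real.exp (-(c * v)) := by rw [mul_assoc, h4, mul_one]
      _ ≤ 24 * (({f | IsPolygon n f} : Set (ZMod (2 * n) → ℤ × ℤ)).ncard : ℝ) *
          Real.exp (-(c * v)) := mul_le_mul_of_nonneg_right h3 (Real.exp_pos _).le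
      _ = _ := by ring

end Pool.Agent.Results.MP_c23e5f_co.PolygonDiametralSites
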