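import Pool.Agent.Run7.h738.PG.Extr

/-!
# The sites at which a long self-avoiding polygon attains its width

Uniform self-avoiding polygons of perimeter `2 n` on the square lattice.  The number of the sites at
which the width (or the extent in any other direction) is attained, up to an error `y`, has
exponential tails which depend neither on `n` nor on the direction; the same holds for the sites
which are farthest from a given point of the plane, and every site of the polygon belongs to few
pairs of sites which almost attain the diameter.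
-/

set_option autoImplicit false

namespace Pool.Agent.Results.MP_c23e5f_co.PolygonSupportingLines

/-- `f` is a self-avoiding polygon of perimeter `2 n`, with a root (which is the origin) and an
orientation: a closed nearest-neighbour walk of `2 n` steps which visits no vertex twice. (Every
polygon, up to translation, has exactly `4 n` such descriptions, so that a uniform `f` is a uniform
polygon with a uniform root and orientation.) -/
def IsPolygon (n : ℕ) (f : ZMod (2 * n) → ℤ × ℤ) : Prop :=
  f 0 = 0 ∧ Function.Injective f ∧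
    ∀ i : ZMod (2 * n), |(f (i + 1)).1 - (f i).1| + |(f (i + 1)).2 - (f i).2| = 1

/-- The probability of an event under the uniform probability measure on the polygons of perimeter
`2 n`. -/
noncomputable def prob (n : ℕ) (E : (ZMod (2 * n) → ℤ × ℤ) → Prop) : ℝ :=
  (({f | IsPolygon n f ∧ E f} : Set (ZMod (2 * n) → ℤ × ℤ)).ncard : ℝ) /
    ({f | IsPolygon n f} : Set (ZMod (2 * n) → ℤ × ℤ)).ncard

/-- The Euclidean distance of the lattice point `v` from the point `(s, t)` of the plane. -/
noncomputable def dist (s t : ℝ) (v : ℤ × ℤ) : ℝ := Real.sqrt ((v.1 - s) ^ 2 + (v.2 - t) ^ 2)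

/-- The Euclidean diameter of the polygon. -/
noncomputable def diam {n : ℕ} (f : ZMod (2 * n) → ℤ × ℤ) : ℝ :=
  ⨆ q : ZMod (2 * n) × ZMod (2 * n), dist (f q.1).1 (f q.1).2 (f q.2)

/-- The number of the sites of the polygon at distance at most `y` from its supporting line with the
outer normal vector `(a, b)`, a unit vector. For `(a, b) = (1, 0)` and `y = 0` these are the sites
in the last column, for `(a, b) = (-1, 0)` and `y = 0` the sites in the first column. -/
noncomputable def atLine (a b y : ℝ) {n : ℕ} (f : ZMod (2 * n) → ℤ × ℤ) : ℕ :=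
  ({i | ∀ j, a * (f j).1 + b * (f j).2 ≤ a * (f i).1 + b * (f i).2 + y} :
    Set (ZMod (2 * n))).ncard

/-- The number of the sites of the polygon whose distance from the point `(s, t)` is the largest
one, up to `y`. -/
noncomputable def farthest (s t y : ℝ) {n : ℕ} (f : ZMod (2 * n) → ℤ × ℤ) : ℕ :=
  ({i | ∀ j, dist s t (f j) ≤ dist s t (f i) + y} : Set (ZMod (2 * n))).ncard

/-- The number of the sites of the polygon which form with the site at time `k` a pair whose
distance is the diameter, up to `y`. -/
noncomputable def partners {n : ℕ} (y : ℝ) (f : ZMod (2 * n) → ℤ × ℤ) (k : ZMod (2 * n)) : ℕ :=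
  ({i | diam f ≤ dist (f k).1 (f k).2 (f i) + y} : Set (ZMod (2 * n))).ncard

theorem prob_le {n : ℕ} (hn : 2 ≤ n) (E : (ZMod (2 * n) → ℤ × ℤ) → Prop) (c : ℝ) (hc : 0 ≤ c)
    (E' : (ZMod (2 * n) → ℤ × ℤ) → Prop) (hE : ∀ f, E f → E' f)
    (h : (({f | Run7.h738.PG.Loop (2 * n) f ∧ E' f} : Set (ZMod (2 * n) → ℤ × ℤ)).ncard : ℝ) ≤
      c * (({f | Run7.h738.PG.Loop (2 * n) f} : Set (ZMod (2 * n) → ℤ × ℤ)).ncard : ℝ)) :
    prob n E ≤ c := by
  unfold prob
  refine div_le_of_le_mul₀ (Nat.cast_nonneg _) hc (le_trans ?_ h)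
  rw [Nat.cast_le]
  refine Set.ncard_le_ncard (fun f hf => ⟨hf.1, hE f hf.2⟩) ?_
  exact (Run7.h738.PG.Loop_finite (2 * n) (by omega)).subset (fun f hf => hf.1)

theorem atLine_eq (a b y : ℝ) {n : ℕ} (f : ZMod (2 * n) → ℤ × ℤ) :
    atLine a b y f = Run7.h738.PG.nP (Run7.h738.BV.ht a b) y f := rfl

theorem farthest_eq (s t y : ℝ) {n : ℕ} (f : ZMod (2 * n) → ℤ × ℤ) :
    farthest s t y f = Run7.h738.PG.nP (Run7.h738.BV.dz s t) y f := rfl

theorem partners_le {n : ℕ} (hn : 2 ≤ n) (y : ℝ) (f : ZMod (2 * n) → ℤ × ℤ) (k : ZMod (2 * n)) :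
    partners y f k ≤ farthest (f k).1 (f k).2 y f := by
  have : NeZero (2 * n) := ⟨by omega⟩
  unfold partners farthest
  refine Set.ncard_le_ncard ?_ (Set.toFinite _)
  intro i hi j
  refine le_trans ?_ (show diam f ≤ _ from hi)
  unfold diam
  exact le_ciSup (f := fun q : ZMod (2 * n) × ZMod (2 * n) => dist (f q.1).1 (f q.1).2 (f q.2))
    (Set.finite_range _).bddAbove (k, j)

/-- **Extremal sites.**  There is a constant `K > 1` such that for all `n ≥ 2` and all `y, x ≥ 0`:
(1) for every unit vector `(a, b)`, the uniform polygon of perimeter `2 n` has more than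
`K ^ (1 + y) (1 + x)` sites at distance at most `y` from its supporting line with this normal vector
with probability at most `e ^ (-x)`; in particular its last column contains more than `K (1 + x)`
sites with probability at most `e ^ (-x)`;
(2) for every point of the plane, the polygon has more than `K ^ (1 + y) (1 + x)` sites whose
distance from the point is maximal up to `y` with probability at most `e ^ (-x)`;
(3) with probability at least `1 - e ^ (-x)`, simultaneously in all directions, the polygon has at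
most `K ^ (1 + y) (1 + log n + x)` sites at distance at most `y` from the supporting line, and
every site is in at most that many pairs whose distance is the diameter up to `y`. -/
theorem result : ∃ K : ℝ, 1 < K ∧ ∀ n : ℕ, 2 ≤ n → ∀ y x : ℝ, 0 ≤ y → 0 ≤ x →
    (∀ a b : ℝ, a ^ 2 + b ^ 2 = 1 →
      prob n (fun f => K ^ (1 + y) * (1 + x) < atLine a b y f) ≤ Real.exp (-x)) ∧
    (∀ s t : ℝ, prob n (fun f => K ^ (1 + y) * (1 + x) < farthest s t y f) ≤ Real.exp (-x)) ∧
    prob n (fun f =>
      (∃ a b : ℝ, a ^ 2 + b ^ 2 = 1 ∧ K ^ (1 + y) * (1 + Real.log n + x) < atLine a b y f) ∨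
      ∃ k, K ^ (1 + y) * (1 + Real.log n + x) < partners y f k) ≤ Real.exp (-x) := by
  obtain ⟨K, hK, h⟩ := Run7.h738.PG.poly_extr
  refine ⟨2 * K, by linarith, fun n hn y x hy hx => ?_⟩
  obtain ⟨h1, h2⟩ := h (2 * n) (by omega) y x hy hx
  have hKy : (0 : ℝ) ≤ K ^ (1 + y) := Real.rpow_nonneg (by linarith) _
  have hKK : 2 * K ^ (1 + y) ≤ (2 * K) ^ (1 + y) := by
    rw [Real.mul_rpow (by norm_num) (by linarith)]
    refine mul_le_mul_of_nonneg_right ?_ hKy
    calc (2 : ℝ) = 2 ^ (1 : ℝ) := (Real.rpow_one 2).symm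
      _ ≤ _ := Real.rpow_le_rpow_of_exponent_le (by norm_num) (by linarith)
  have hx' : K ^ (1 + y) * (1 + x) ≤ (2 * K) ^ (1 + y) * (1 + x) := by
    refine mul_le_mul_of_nonneg_right ?_ (by linarith)
    linarith
  have hn' : (2 : ℝ) ≤ n := by exact_mod_cast hn
  have hlog : 0 ≤ Real.log n := Real.log_nonneg (by linarith)
  have hlog2 : Real.log ((2 * n : ℕ) : ℝ) ≤ 1 + Real.log n := by
    push_cast
    rw [Real.log_mul (by norm_num) (by positivity)]
    have := Real.log_two_lt_d9
    linarith
  have hx2 : K ^ (1 + y) * (1 + Real.log ((2 * n : ℕ) : ℝ) + x) ≤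
      (2 * K) ^ (1 + y) * (1 + Real.log n + x) := by
    calc K ^ (1 + y) * (1 + Real.log ((2 * n : ℕ) : ℝ) + x)
        ≤ K ^ (1 + y) * (2 * (1 + Real.log n + x)) :=
          mul_le_mul_of_nonneg_left (by linarith) hKy
      _ = (2 * K ^ (1 + y)) * (1 + Real.log n + x) := by ring
      _ ≤ _ := mul_le_mul_of_nonneg_right hKK (by linarith)
  refine ⟨fun a b hab => ?_, fun s t => ?_, ?_⟩
  · refine prob_le hn _ _ (Real.exp_pos _).le _ (fun f hf => ?_)
      (h1 _ (Run7.h738.BV.steep_ht hab))
    exact lt_of_le_of_lt hx' hf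
  · refine prob_le hn _ _ (Real.exp_pos _).le _ (fun f hf => ?_)
      (h1 _ (Run7.h738.BV.steep_dz s t))
    exact lt_of_le_of_lt hx' hf
  · refine prob_le hn _ _ (Real.exp_pos _).le _ (fun f hf => ?_) h2
    rcases hf with ⟨a, b, hab, hf⟩ | ⟨k, hf⟩
    · exact Or.inl ⟨a, b, hab, lt_of_le_of_lt hx2 hf⟩
    · refine Or.inr ⟨k, lt_of_le_of_lt hx2 (lt_of_lt_of_le hf ?_)⟩
      exact_mod_cast partners_le hn y f k

end Pool.Agent.Results.MP_c23e5f_co.PolygonSupportingLines
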